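import Mathlib
import Pool.Agent.H34.PTour

namespace Pool.Agent.Results.MP_265233_co.NotBounded
open Pool.Agent.H34.PTourDefs

/-- Poset tournaments of clique number at most two have unbounded dichromatic number, so the
class of poset tournaments is not dichromatically bounded. -/
theorem result :
    (∀ k : ℕ, ∃ (V : Type) (_ : Fintype V) (A : V → V → Prop),
      IsPosetTournament A ∧ diomega A ≤ 2 ∧ k < dichi A) ∧
    ¬ ∃ f : ℕ → ℕ, ∀ (V : Type) [Fintype V] (A : V → V → Prop),
      IsPosetTournament A → dichi A ≤ f (diomega A) := by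
  refine ⟨Pool.Agent.H34.PTour.main, fun ⟨f, hf⟩ => ?_⟩
  obtain ⟨V, _, A, h1, h2, h3⟩ := Pool.Agent.H34.PTour.main (f 0 + f 1 + f 2)
  have := hf V A h1
  generalize diomega A = w at h2 this
  interval_cases w <;> omega

end Pool.Agent.Results.MP_265233_co.NotBounded
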